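import Pool.Agent.Lib.MP_c6644d_al.Assembly

/-!
# MP_c6644d_al, Q1: free-by-cyclic groups are not effectively coherent

There is no algorithm (partial recursive function) which, given `n`, words for an automorphism `φ`
of `F_n` and a finite list `S` of words in `x_1, …, x_n, t`, outputs a finite presentation of the
subgroup `⟨S⟩` of `F_n ⋊_φ ℤ`. This already fails for the single group with `n = 3` and
`φ : x ↦ x, y ↦ y x, z ↦ y⁻¹ z`, even if only the isomorphism type of `⟨S⟩` is asked for.
-/

set_option autoImplicit false

namespace Pool.Agent.Results.MP_c6644d_al.NoAlgorithm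

open Pool.Agent.Lib.MP_c6644d_al

/-- No partial recursive function solves the problem. This is so already for one group: for the
automorphism `φ` of `F_3` with `x ↦ x`, `y ↦ y x`, `z ↦ y⁻¹ z` there is no partial recursive
function which, for every list `S` of words, halts with a finite presentation of a group isomorphic
to the subgroup generated by `S`. -/
theorem result :
    (¬ ∃ f : ℕ × List Wd × List Wd →. List Wd × List Wd, Partrec f ∧ Solves f) ∧
      ∃ φ : MulAut (FreeGroup (Fin 3)),
        (φ (FreeGroup.of 0) = FreeGroup.of 0 ∧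
          φ (FreeGroup.of 1) = FreeGroup.of 1 * FreeGroup.of 0 ∧
          φ (FreeGroup.of 2) = (FreeGroup.of 1)⁻¹ * FreeGroup.of 2) ∧
        ¬ ∃ F : List Wd →. ℕ × List Wd, Partrec F ∧
          ∀ S : List Wd, Valid 3 S →
            ∃ o ∈ F S, Nonempty (PresentedGroup (relators o.1 o.2) ≃* sub φ S) :=
  ⟨literal_of_abstract no_abstract, FBC.a3, ⟨FBC.a3_0, FBC.a3_1, FBC.a3_2⟩, no_abstract⟩

end Pool.Agent.Results.MP_c6644d_al.NoAlgorithm
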